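import Mathlib

/-!
Differences between the complex embeddings on the unit circle and the real embedding of a number
field generated by one element, and the linear functional used to steer an orbit.
-/

set_option autoImplicit false

namespace Pool.Agent.Lib_helper95.SR

open Finset Polynomial
open scoped ComplexConjugate

noncomputable section

variable {K : Type*} [Field K] [NumberField K]

/-- Difference between a complex embedding and the real one. -/
def Del (e : K →+* ℝ) (φ : K →+* ℂ) (y : K) : ℂ := φ y - ((e y : ℝ) : ℂ)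

/-- The driving coefficient. -/
def cc (e : K →+* ℝ) (b : K) (φ : K →+* ℂ) : ℂ := ((e b : ℝ) : ℂ) - φ b

open Classical in
/-- The embeddings which send `b` to the unit circle. -/
def SS (b : K) : Finset (K →+* ℂ) := Finset.univ.filter (fun φ => ‖φ b‖ = 1)

/-- The potential. -/
def VV (e : K →+* ℝ) (b y : K) : ℝ := ∑ φ ∈ SS b, ‖Del e φ y‖ ^ 2

/-- The constant of the quadratic term. -/
def CC (e : K →+* ℝ) (b : K) : ℝ := ∑ φ ∈ SS b, ‖cc e b φ‖ ^ 2

/-- The linear functional with `j` rotations. -/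
def Lam (e : K →+* ℝ) (b : K) (j : ℕ) (y : K) : ℂ :=
  ∑ φ ∈ SS b, φ b ^ (j + 1) * conj (cc e b φ) * Del e φ y

/-- The linear functional whose sign decides the rounding. -/
def LL (e : K →+* ℝ) (b y : K) : ℝ := (Lam e b 0 y).re

lemma mem_SS {b : K} {φ : K →+* ℂ} : φ ∈ SS b ↔ ‖φ b‖ = 1 := by
  simp [SS]

lemma VV_nonneg (e : K →+* ℝ) (b y : K) : 0 ≤ VV e b y :=
  Finset.sum_nonneg fun _ _ => by positivity

lemma CC_nonneg (e : K →+* ℝ) (b : K) : 0 ≤ CC e b :=
  Finset.sum_nonneg fun _ _ => by positivity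

lemma Del_step (e : K →+* ℝ) (b y : K) (a : ℤ) (φ : K →+* ℂ) :
    Del e φ (b * y - a) = φ b * Del e φ y - cc e b φ * ((e y : ℝ) : ℂ) := by
  simp only [Del, cc, map_sub, map_mul, map_intCast]
  push_cast
  ring

lemma Del_zero (e : K →+* ℝ) (φ : K →+* ℂ) : Del e φ 0 = 0 := by simp [Del]

lemma LL_zero (e : K →+* ℝ) (b : K) : LL e b 0 = 0 := by simp [LL, Lam, Del_zero]

lemma norm_sq_aux (u c d : ℂ) (t : ℝ) (hu : ‖u‖ = 1) :
    ‖u * d - c * (t : ℂ)‖ ^ 2 = ‖d‖ ^ 2 - 2 * t * (u * conj c * d).re + t ^ 2 * ‖c‖ ^ 2 := by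
  have hu2 : u.re * u.re + u.im * u.im = 1 := by
    have h := Complex.normSq_eq_norm_sq u
    rw [hu, Complex.normSq_apply] at h
    simpa using h
  rw [← Complex.normSq_eq_norm_sq, ← Complex.normSq_eq_norm_sq, ← Complex.normSq_eq_norm_sq]
  simp only [Complex.normSq_apply, Complex.sub_re, Complex.sub_im, Complex.mul_re, Complex.mul_im,
    Complex.ofReal_re, Complex.ofReal_im, Complex.conj_re, Complex.conj_im]
  linear_combination (d.re * d.re + d.im * d.im) * hu2

lemma VV_step (e : K →+* ℝ) (b y : K) (a : ℤ) :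
    VV e b (b * y - a) = VV e b y - 2 * e y * LL e b y + (e y) ^ 2 * CC e b := by
  have h1 : VV e b (b * y - a) = ∑ φ ∈ SS b, (‖Del e φ y‖ ^ 2
      - 2 * e y * (φ b * conj (cc e b φ) * Del e φ y).re + (e y) ^ 2 * ‖cc e b φ‖ ^ 2) := by
    refine Finset.sum_congr rfl fun φ hφ => ?_
    rw [Del_step, norm_sq_aux _ _ _ _ (mem_SS.1 hφ)]
  rw [h1, Finset.sum_add_distrib, Finset.sum_sub_distrib, ← Finset.mul_sum, ← Finset.mul_sum]
  simp [VV, LL, Lam, CC, Complex.re_sum]

lemma Lam_real (e : K →+* ℝ) (b : K) (j : ℕ) (y : K) : (Lam e b j y).im = 0 := by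
  have h : conj (Lam e b j y) = Lam e b j y := by
    unfold Lam
    rw [map_sum]
    refine Finset.sum_nbij' (fun φ => NumberField.ComplexEmbedding.conjugate φ)
      (fun φ => NumberField.ComplexEmbedding.conjugate φ) ?_ ?_ ?_ ?_ ?_
    · intro φ hφ
      rw [mem_SS] at hφ ⊢
      simpa [NumberField.ComplexEmbedding.conjugate_coe_eq] using hφ
    · intro φ hφ
      rw [mem_SS] at hφ ⊢
      simpa [NumberField.ComplexEmbedding.conjugate_coe_eq] using hφ
    · intro φ _
      ext x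
      simp [NumberField.ComplexEmbedding.conjugate_coe_eq]
    · intro φ _
      ext x
      simp [NumberField.ComplexEmbedding.conjugate_coe_eq]
    · intro φ _
      simp [NumberField.ComplexEmbedding.conjugate_coe_eq, cc, Del]
  exact Complex.conj_eq_iff_im.1 h

lemma norm_Lam (e : K →+* ℝ) (b : K) (j : ℕ) (y : K) :
    ‖Lam e b j y‖ = |(Lam e b j y).re| := by
  have h : Lam e b j y = ((Lam e b j y).re : ℂ) := by
    apply Complex.ext
    · simp
    · simp [Lam_real]
  rw [h, Complex.norm_real]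
  simp

/-- Passing one step of the orbit through the functional. -/
lemma Lam_step (e : K →+* ℝ) (b y : K) (a : ℤ) (i : ℕ) :
    ‖Lam e b i (b * y - a) - Lam e b (i + 1) y‖ ≤ |e y| * CC e b := by
  have h : Lam e b i (b * y - a) - Lam e b (i + 1) y
      = ∑ φ ∈ SS b, - (φ b ^ (i + 1) * (conj (cc e b φ) * cc e b φ) * ((e y : ℝ) : ℂ)) := by
    unfold Lam
    rw [← Finset.sum_sub_distrib]
    refine Finset.sum_congr rfl fun φ _ => ?_
    rw [Del_step]
    ring
  rw [h]
  refine (norm_sum_le _ _).trans ?_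
  rw [CC, Finset.mul_sum]
  refine Finset.sum_le_sum fun φ hφ => ?_
  rw [mem_SS] at hφ
  rw [norm_neg, norm_mul, norm_mul, norm_pow, hφ, norm_mul, RCLike.norm_conj, Complex.norm_real]
  simp only [one_pow, one_mul, Real.norm_eq_abs]
  nlinarith [norm_nonneg (cc e b φ), abs_nonneg (e y)]

/-- An orbit segment: the value of the functional after `j` steps. -/
lemma Lam_orbit (e : K →+* ℝ) (b : K) (y : ℕ → K) (a : ℕ → ℤ)
    (hy : ∀ n, y (n + 1) = b * y n - a n) (h1 : ∀ n, |e (y n)| ≤ 1) (j : ℕ) :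
    ∀ n i, ‖Lam e b i (y (n + j)) - Lam e b (i + j) (y n)‖ ≤ j * CC e b := by
  induction j with
  | zero => intro n i; simp
  | succ j ih =>
    intro n i
    have h2 := ih (n + 1) i
    have h3 := Lam_step e b (y n) (a n) (i + j)
    rw [← hy n] at h3
    have h4 : |e (y n)| * CC e b ≤ 1 * CC e b :=
      mul_le_mul_of_nonneg_right (h1 n) (CC_nonneg e b)
    have e1 : n + 1 + j = n + (j + 1) := by ring
    have e2 : i + (j + 1) = i + j + 1 := by ring
    rw [e1] at h2
    rw [e2]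
    calc ‖Lam e b i (y (n + (j + 1))) - Lam e b (i + j + 1) (y n)‖
        ≤ ‖Lam e b i (y (n + (j + 1))) - Lam e b (i + j) (y (n + 1))‖
          + ‖Lam e b (i + j) (y (n + 1)) - Lam e b (i + j + 1) (y n)‖ := norm_sub_le_norm_sub_add_norm_sub _ _ _
      _ ≤ j * CC e b + 1 * CC e b := by linarith
      _ = ((j + 1 : ℕ) : ℝ) * CC e b := by push_cast; ring

lemma LL_orbit (e : K →+* ℝ) (b : K) (y : ℕ → K) (a : ℕ → ℤ)
    (hy : ∀ n, y (n + 1) = b * y n - a n) (h1 : ∀ n, |e (y n)| ≤ 1) (n j : ℕ) :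
    |LL e b (y (n + j)) - (Lam e b j (y n)).re| ≤ j * CC e b := by
  have h := Lam_orbit e b y a hy h1 j n 0
  rw [zero_add] at h
  refine le_trans ?_ h
  rw [LL, ← Complex.sub_re]
  exact Complex.abs_re_le_norm _

lemma norm_Del_le (e : K →+* ℝ) (b y : K) {φ : K →+* ℂ} (hφ : φ ∈ SS b) :
    ‖Del e φ y‖ ≤ Real.sqrt (VV e b y) := by
  apply Real.le_sqrt_of_sq_le
  exact Finset.single_le_sum (f := fun φ => ‖Del e φ y‖ ^ 2) (fun _ _ => by positivity) hφ

/-- Observability in `card (SS b)` consecutive steps. -/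
lemma observe (e : K →+* ℝ) (b : K) (hinj : ∀ φ ψ : K →+* ℂ, φ b = ψ b → φ = ψ)
    (hb : 1 < e b) (hne : (SS b).Nonempty) :
    ∃ ε : ℝ, 0 < ε ∧ ∀ (y : K) (j : ℕ), ∃ i < (SS b).card,
      ε * Real.sqrt (VV e b y) ≤ |(Lam e b (j + i) y).re| := by
  classical
  have hinjOn : Set.InjOn (fun φ : K →+* ℂ => φ b) (SS b) := fun φ _ ψ _ h => hinj φ ψ h
  set p : (K →+* ℂ) → ℂ[X] := fun φ => Lagrange.basis (SS b) (fun φ : K →+* ℂ => φ b) φ with hp
  set P : ℝ := ∑ φ ∈ SS b, ∑ i ∈ range (SS b).card, ‖(p φ).coeff i‖ with hP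
  have hP0 : 0 ≤ P := Finset.sum_nonneg fun _ _ => Finset.sum_nonneg fun _ _ => norm_nonneg _
  set Q : ℝ := ∑ φ ∈ SS b, (‖cc e b φ‖ ^ 2)⁻¹ with hQ
  have hQ0 : 0 ≤ Q := Finset.sum_nonneg fun _ _ => by positivity
  have hcc : ∀ φ ∈ SS b, 0 < ‖cc e b φ‖ := by
    intro φ hφ
    rw [mem_SS] at hφ
    rw [norm_pos_iff, cc, sub_ne_zero]
    intro h
    rw [← h, Complex.norm_real, Real.norm_eq_abs, abs_of_pos (by linarith)] at hφ
    linarith
  set D : ℝ := (P + 1) ^ 2 * (Q + 1) with hD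
  have hD0 : 0 < D := by positivity
  refine ⟨(Real.sqrt D)⁻¹, by positivity, ?_⟩
  intro y j
  by_contra hcon
  push Not at hcon
  set V := VV e b y with hV
  have hV0 : 0 ≤ V := VV_nonneg e b y
  have hcard : 0 < (SS b).card := hne.card_pos
  have hVpos : 0 < V := by
    rcases hV0.lt_or_eq with h | h
    · exact h
    · exfalso
      have := hcon 0 hcard
      rw [← h] at this
      simp at this
      have h2 := abs_nonneg (Lam e b j y).re
      linarith
  have hM : ∀ i < (SS b).card, ‖Lam e b (j + i) y‖ ≤ (Real.sqrt D)⁻¹ * Real.sqrt V := by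
    intro i hi
    rw [norm_Lam]
    exact (hcon i hi).le
  -- each coordinate is small
  have hcoord : ∀ φ ∈ SS b, ‖Del e φ y‖ ≤ P * ((Real.sqrt D)⁻¹ * Real.sqrt V) / ‖cc e b φ‖ := by
    intro φ hφ
    have hdeg : (p φ).natDegree < (SS b).card := by
      rw [hp]
      simp only
      rw [Lagrange.natDegree_basis hinjOn hφ]
      omega
    have hsum : φ b ^ (j + 1) * conj (cc e b φ) * Del e φ y
        = ∑ i ∈ range (SS b).card, (p φ).coeff i * Lam e b (j + i) y := by
      have h1 : ∑ i ∈ range (SS b).card, (p φ).coeff i * Lam e b (j + i) y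
          = ∑ ψ ∈ SS b, (p φ).eval (ψ b) * (ψ b ^ (j + 1) * conj (cc e b ψ) * Del e ψ y) := by
        unfold Lam
        simp_rw [Finset.mul_sum]
        rw [Finset.sum_comm]
        refine Finset.sum_congr rfl fun ψ _ => ?_
        rw [Polynomial.eval_eq_sum_range' hdeg, Finset.sum_mul]
        refine Finset.sum_congr rfl fun i _ => ?_
        ring
      rw [h1, Finset.sum_eq_single φ]
      · rw [hp]
        simp only
        rw [Lagrange.eval_basis_self hinjOn hφ, one_mul]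
      · intro ψ hψ hne'
        have h5 : (Lagrange.basis (SS b) (fun φ : K →+* ℂ => φ b) φ).eval (ψ b) = 0 :=
          Lagrange.eval_basis_of_ne (v := fun φ : K →+* ℂ => φ b) hne'.symm hψ
        rw [hp]
        simp only
        rw [h5, zero_mul]
      · intro h; exact absurd hφ h
    have hn : ‖φ b ^ (j + 1) * conj (cc e b φ) * Del e φ y‖ = ‖cc e b φ‖ * ‖Del e φ y‖ := by
      rw [norm_mul, norm_mul, norm_pow, mem_SS.1 hφ, RCLike.norm_conj]
      simp
    have hle : ‖cc e b φ‖ * ‖Del e φ y‖ ≤ P * ((Real.sqrt D)⁻¹ * Real.sqrt V) := by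
      rw [← hn, hsum]
      refine (norm_sum_le _ _).trans ?_
      have h2 : ∑ i ∈ range (SS b).card, ‖(p φ).coeff i * Lam e b (j + i) y‖
          ≤ ∑ i ∈ range (SS b).card, ‖(p φ).coeff i‖ * ((Real.sqrt D)⁻¹ * Real.sqrt V) := by
        refine Finset.sum_le_sum fun i hi => ?_
        rw [norm_mul]
        exact mul_le_mul_of_nonneg_left (hM i (Finset.mem_range.1 hi)) (norm_nonneg _)
      refine h2.trans ?_
      rw [← Finset.sum_mul]
      refine mul_le_mul_of_nonneg_right ?_ (by positivity)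
      rw [hP]
      exact Finset.single_le_sum
        (f := fun φ => ∑ i ∈ range (SS b).card, ‖(p φ).coeff i‖)
        (fun _ _ => Finset.sum_nonneg fun _ _ => norm_nonneg _) hφ
    rw [le_div_iff₀ (hcc φ hφ)]
    linarith
  have hfin : V ≤ P ^ 2 * Q * D⁻¹ * V := by
    have h3 : V ≤ ∑ φ ∈ SS b, (P * ((Real.sqrt D)⁻¹ * Real.sqrt V) / ‖cc e b φ‖) ^ 2 := by
      rw [hV, VV]
      refine Finset.sum_le_sum fun φ hφ => ?_
      exact pow_le_pow_left₀ (norm_nonneg _) (hcoord φ hφ) 2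
    refine h3.trans (le_of_eq ?_)
    have h4 : ∀ φ ∈ SS b, (P * ((Real.sqrt D)⁻¹ * Real.sqrt V) / ‖cc e b φ‖) ^ 2
        = P ^ 2 * D⁻¹ * V * (‖cc e b φ‖ ^ 2)⁻¹ := by
      intro φ _
      rw [div_pow, mul_pow, mul_pow, inv_pow, Real.sq_sqrt hD0.le, Real.sq_sqrt hV0]
      ring
    rw [Finset.sum_congr rfl h4, ← Finset.mul_sum]
    ring
  have hlt : P ^ 2 * Q * D⁻¹ < 1 := by
    rw [← div_eq_mul_inv, div_lt_one hD0, hD]
    nlinarith [mul_nonneg hP0 hQ0, mul_nonneg (mul_nonneg hP0 hP0) hQ0]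
  nlinarith

end

end Pool.Agent.Lib_helper95.SR
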