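import Mathlib
import Pool.Agent.Lib_helper95.SR.Obs

/-!
In every window of bounded length a steered orbit with a large potential gains.
-/

set_option autoImplicit false

namespace Pool.Agent.Lib_helper95.SR

open Finset Polynomial
open scoped ComplexConjugate

noncomputable section

variable {K : Type*} [Field K] [NumberField K]

/-- Sums of the functional along the rotation stay bounded. -/
lemma sum_bounded (e : K →+* ℝ) (b : K) (hne1 : ∀ φ : K →+* ℂ, φ b ≠ 1) :
    ∃ C : ℝ, 0 < C ∧ ∀ (y : K) (j N : ℕ),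
      ‖∑ i ∈ range N, Lam e b (j + i) y‖ ≤ C * Real.sqrt (VV e b y) := by
  refine ⟨(∑ φ ∈ SS b, 2 * ‖cc e b φ‖ / ‖φ b - 1‖) + 1, ?_, ?_⟩
  · have : 0 ≤ ∑ φ ∈ SS b, 2 * ‖cc e b φ‖ / ‖φ b - 1‖ :=
      Finset.sum_nonneg fun _ _ => by positivity
    linarith
  intro y j N
  have h : ∑ i ∈ range N, Lam e b (j + i) y
      = ∑ φ ∈ SS b, (∑ i ∈ range N, φ b ^ i) * (φ b ^ (j + 1) * conj (cc e b φ) * Del e φ y) := by
    unfold Lam
    rw [Finset.sum_comm]
    refine Finset.sum_congr rfl fun φ _ => ?_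
    rw [Finset.sum_mul]
    refine Finset.sum_congr rfl fun i _ => ?_
    ring
  rw [h]
  refine (norm_sum_le _ _).trans ?_
  have h2 : ∀ φ ∈ SS b,
      ‖(∑ i ∈ range N, φ b ^ i) * (φ b ^ (j + 1) * conj (cc e b φ) * Del e φ y)‖
        ≤ (2 * ‖cc e b φ‖ / ‖φ b - 1‖) * Real.sqrt (VV e b y) := by
    intro φ hφ
    have hpos : 0 < ‖φ b - 1‖ := norm_pos_iff.2 (sub_ne_zero.2 (hne1 φ))
    have hg : ‖∑ i ∈ range N, φ b ^ i‖ ≤ 2 / ‖φ b - 1‖ := by
      rw [geom_sum_eq (hne1 φ), norm_div]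
      refine div_le_div_of_nonneg_right ?_ hpos.le
      refine (norm_sub_le _ _).trans ?_
      rw [norm_pow, mem_SS.1 hφ]
      norm_num
    have hn : ‖φ b ^ (j + 1) * conj (cc e b φ) * Del e φ y‖ = ‖cc e b φ‖ * ‖Del e φ y‖ := by
      rw [norm_mul, norm_mul, norm_pow, mem_SS.1 hφ, RCLike.norm_conj]
      simp
    rw [norm_mul, hn]
    have h3 := norm_Del_le e b y hφ
    calc ‖∑ i ∈ range N, φ b ^ i‖ * (‖cc e b φ‖ * ‖Del e φ y‖)
        ≤ (2 / ‖φ b - 1‖) * (‖cc e b φ‖ * Real.sqrt (VV e b y)) := by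
          refine mul_le_mul hg ?_ (by positivity) (by positivity)
          exact mul_le_mul_of_nonneg_left h3 (norm_nonneg _)
      _ = (2 * ‖cc e b φ‖ / ‖φ b - 1‖) * Real.sqrt (VV e b y) := by ring
  refine (Finset.sum_le_sum h2).trans ?_
  rw [← Finset.sum_mul]
  exact mul_le_mul_of_nonneg_right (by linarith) (Real.sqrt_nonneg _)

/-- A real sequence with bounded sums which is large once in every block takes both signs
strongly. -/
lemma both_signs (m k : ℕ) (hm : 0 < m) (ε C R : ℝ) (hε : 0 < ε) (hC : 0 < C) (hR : 0 < R)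
    (hk : 2 * C / ε < k) (f : ℕ → ℝ) (h1 : ∀ s, ∃ i < m, ε * R ≤ |f (s + i)|)
    (h2 : |∑ i ∈ range (m * k), f i| ≤ C * R) :
    ∃ j < m * k, f j < - (ε / (4 * m) * R) := by
  by_contra hcon
  push Not at hcon
  have hm' : (0 : ℝ) < m := by exact_mod_cast hm
  -- sum of absolute values
  have habs : ∀ k' : ℕ, (k' : ℝ) * (ε * R) ≤ ∑ i ∈ range (m * k'), |f i| := by
    intro k'
    induction k' with
    | zero => simp
    | succ n ih =>
      rw [Nat.mul_succ, Finset.sum_range_add]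
      obtain ⟨i, hi, hfi⟩ := h1 (m * n)
      have h3 : |f (m * n + i)| ≤ ∑ x ∈ range m, |f (m * n + x)| :=
        Finset.single_le_sum (f := fun x => |f (m * n + x)|) (fun _ _ => abs_nonneg _)
          (Finset.mem_range.2 hi)
      push_cast
      nlinarith
  have h4 := habs k
  have h5 : ∑ i ∈ range (m * k), |f i| ≤
      (∑ i ∈ range (m * k), f i) + ∑ i ∈ range (m * k), 2 * (ε / (4 * m) * R) := by
    rw [← Finset.sum_add_distrib]
    refine Finset.sum_le_sum fun i hi => ?_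
    have h6 := hcon i (Finset.mem_range.1 hi)
    have h7 : 0 < ε / (4 * m) * R := by positivity
    rcases abs_cases (f i) with ⟨h8, _⟩ | ⟨h8, _⟩ <;> rw [h8] <;> linarith
  rw [Finset.sum_const, Finset.card_range, nsmul_eq_mul] at h5
  have h9 : ((m * k : ℕ) : ℝ) * (2 * (ε / (4 * m) * R)) = k * (ε * R) / 2 := by
    push_cast
    field_simp
    ring
  rw [h9] at h5
  have h10 := (abs_le.1 h2).2
  rw [div_lt_iff₀ hε] at hk
  nlinarith

/-- Integer combinations of low powers of `β` are zero or not small. -/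
lemma no_small (β : ℝ) (m B : ℕ)
    (hind : ∀ f : ℕ → ℤ, (∑ i ∈ range m, (f i : ℝ) * β ^ i = 0) → ∀ i < m, f i = 0) :
    ∃ η : ℝ, 0 < η ∧ ∀ f : ℕ → ℤ, (∀ i, |f i| ≤ B) →
      |∑ i ∈ range m, (f i : ℝ) * β ^ i| < η → ∀ i < m, f i = 0 := by
  classical
  set T := Fin m → Finset.Icc (-(B : ℤ)) B with hT
  haveI : Nonempty T := ⟨fun _ => ⟨0, by simp⟩⟩
  set ext : T → ℕ → ℤ := fun g i => if h : i < m then (g ⟨i, h⟩ : ℤ) else 0 with hext
  set F : T → ℝ := fun g =>
    if |∑ i ∈ range m, (ext g i : ℝ) * β ^ i| = 0 then 1 else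
      |∑ i ∈ range m, (ext g i : ℝ) * β ^ i| with hF
  obtain ⟨g0, hg0⟩ := Finite.exists_min F
  have hFpos : ∀ g, 0 < F g := by
    intro g
    simp only [hF]
    split_ifs with h
    · norm_num
    · exact lt_of_le_of_ne (abs_nonneg _) (Ne.symm h)
  refine ⟨F g0, hFpos g0, ?_⟩
  intro f hf hlt
  have hmem : ∀ i, f i ∈ Finset.Icc (-(B : ℤ)) B := fun i => by
    rw [Finset.mem_Icc]
    exact abs_le.1 (hf i)
  set g : T := fun i => ⟨f i, hmem i⟩ with hg
  have hext' : ∀ i < m, ext g i = f i := by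
    intro i hi
    simp [hext, hg, hi]
  have hs : ∑ i ∈ range m, (ext g i : ℝ) * β ^ i = ∑ i ∈ range m, (f i : ℝ) * β ^ i := by
    refine Finset.sum_congr rfl fun i hi => ?_
    rw [hext' i (Finset.mem_range.1 hi)]
  apply hind
  by_contra hne
  have h1 := hg0 g
  simp only [hF] at h1 hlt
  rw [hs] at h1
  rw [if_neg (fun h => hne (abs_eq_zero.1 h))] at h1
  linarith

end

end Pool.Agent.Lib_helper95.SR
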