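import Mathlib
import Pool.Agent.Lib_helper95.SR.Window

/-!
The window lemma: a steered orbit with a large potential gains in every window of bounded length.
-/

set_option autoImplicit false

namespace Pool.Agent.Lib_helper95.SR

open Finset Polynomial
open scoped ComplexConjugate

noncomputable section

variable {K : Type*} [Field K] [NumberField K]

lemma orbit_formula (e : K →+* ℝ) (b : K) (y : ℕ → K) (a : ℕ → ℤ)
    (hy : ∀ n, y (n + 1) = b * y n - a n) (n k : ℕ) :
    e (y (n + k)) = e b ^ k * e (y n) - ∑ i ∈ range k, (a (n + k - 1 - i) : ℝ) * e b ^ i := by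
  induction k with
  | zero => simp
  | succ k ih =>
    rw [← Nat.add_assoc, hy, map_sub, map_mul, map_intCast, ih, Finset.sum_range_succ']
    have h1 : ∀ i ∈ range k, (a (n + k + 1 - 1 - (i + 1)) : ℝ) * e b ^ (i + 1)
        = e b * ((a (n + k - 1 - i) : ℝ) * e b ^ i) := by
      intro i _
      have : n + k + 1 - 1 - (i + 1) = n + k - 1 - i := by omega
      rw [this]
      ring
    rw [Finset.sum_congr rfl h1, ← Finset.mul_sum]
    simp
    ring

lemma digit_bound (e : K →+* ℝ) (b : K) (y : ℕ → K) (a : ℕ → ℤ) (hb : 1 < e b)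
    (hy : ∀ n, y (n + 1) = b * y n - a n) (h1 : ∀ n, |e (y n)| ≤ 1) (B : ℕ) (hB : e b + 1 ≤ B)
    (n : ℕ) : |a n| ≤ B := by
  have h2 : (a n : ℝ) = e b * e (y n) - e (y (n + 1)) := by
    rw [hy, map_sub, map_mul, map_intCast]; ring
  have h3 : |(a n : ℝ)| ≤ B := by
    rw [h2]
    refine (abs_sub _ _).trans ?_
    rw [abs_mul, abs_of_pos (show (0 : ℝ) < e b by linarith)]
    have h4 := h1 n
    have h5 := h1 (n + 1)
    nlinarith
  have h6 : ((|a n| : ℤ) : ℝ) ≤ ((B : ℤ) : ℝ) := by
    rw [Int.cast_abs]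
    simpa using h3
  exact_mod_cast h6

/-- If the orbit is very close to zero at two times at distance at most `m`, then the digits
between them are zero. -/
lemma digits_zero (e : K →+* ℝ) (b : K) (y : ℕ → K) (a : ℕ → ℤ) (hb : 1 < e b)
    (hy : ∀ n, y (n + 1) = b * y n - a n) (m B : ℕ) (η : ℝ)
    (haB : ∀ n, |a n| ≤ B)
    (hη : ∀ f : ℕ → ℤ, (∀ i, |f i| ≤ B) →
      |∑ i ∈ range m, (f i : ℝ) * e b ^ i| < η → ∀ i < m, f i = 0)
    (n k : ℕ) (hk : k ≤ m) (h1 : |e (y n)| < η / (2 * e b ^ m))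
    (h2 : |e (y (n + k))| < η / (2 * e b ^ m)) :
    ∀ i < k, a (n + i) = 0 := by
  classical
  have hb0 : 0 < e b := by linarith
  have hbm : 0 < e b ^ m := by positivity
  have hbk : e b ^ k ≤ e b ^ m := pow_le_pow_right₀ hb.le hk
  have hbm1 : 1 ≤ e b ^ m := one_le_pow₀ hb.le
  set f : ℕ → ℤ := fun i => if i < k then a (n + k - 1 - i) else 0 with hf
  have hsum : ∑ i ∈ range m, (f i : ℝ) * e b ^ i
      = ∑ i ∈ range k, (a (n + k - 1 - i) : ℝ) * e b ^ i := by
    rw [← Finset.sum_subset (Finset.range_subset_range.2 hk)]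
    · refine Finset.sum_congr rfl fun i hi => ?_
      simp [hf, Finset.mem_range.1 hi]
    · intro i _ hi
      have : ¬ i < k := by simpa using hi
      simp [hf, this]
  have hlt : |∑ i ∈ range m, (f i : ℝ) * e b ^ i| < η := by
    rw [hsum]
    have h3 := orbit_formula e b y a hy n k
    have h4 : ∑ i ∈ range k, (a (n + k - 1 - i) : ℝ) * e b ^ i
        = e b ^ k * e (y n) - e (y (n + k)) := by linarith
    rw [h4]
    refine lt_of_le_of_lt (abs_sub _ _) ?_
    rw [abs_mul, abs_of_pos (show (0 : ℝ) < e b ^ k by positivity)]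
    have h5 : e b ^ k * |e (y n)| ≤ e b ^ m * |e (y n)| :=
      mul_le_mul_of_nonneg_right hbk (abs_nonneg _)
    rw [lt_div_iff₀ (by positivity)] at h1 h2
    have h6 : e b ^ m * |e (y n)| < η / 2 := by linarith
    have h7 : |e (y (n + k))| < η / 2 := by
      have : |e (y (n + k))| ≤ |e (y (n + k))| * e b ^ m :=
        le_mul_of_one_le_right (abs_nonneg _) hbm1
      linarith
    linarith
  have hfB : ∀ i, |f i| ≤ B := by
    intro i
    simp only [hf]
    split_ifs
    · exact haB _
    · simp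
  have h8 := hη f hfB hlt
  intro i hi
  have h9 := h8 (k - 1 - i) (by omega)
  simp only [hf] at h9
  rw [if_pos (by omega)] at h9
  have : n + k - 1 - (k - 1 - i) = n + i := by omega
  rwa [this] at h9

theorem window (e : K →+* ℝ) (b : K) (hinj : ∀ φ ψ : K →+* ℂ, φ b = ψ b → φ = ψ)
    (hb : 1 < e b) (hne1 : ∀ φ : K →+* ℂ, φ b ≠ 1) (hne : (SS b).Nonempty)
    (hind : ∀ f : ℕ → ℤ, (∑ i ∈ range (SS b).card, (f i : ℝ) * e b ^ i = 0) →
      ∀ i < (SS b).card, f i = 0) :
    ∃ W : ℕ, ∃ κ V0 : ℝ, 0 < κ ∧ 0 < V0 ∧ ∀ (y : ℕ → K) (a : ℕ → ℤ),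
      (∀ n, y (n + 1) = b * y n - a n) → (∀ n, |e (y n)| ≤ 1) →
      (∀ j ≤ W, 0 ≤ e (y j) * LL e b (y j)) → V0 ≤ Real.sqrt (VV e b (y 0)) →
      ∃ j ≤ W, κ * Real.sqrt (VV e b (y 0)) ≤ e (y j) * LL e b (y j) := by
  obtain ⟨ε, hε, hobs⟩ := observe e b hinj hb hne
  obtain ⟨C, hC, hsum⟩ := sum_bounded e b hne1
  set m := (SS b).card with hm
  have hm0 : 0 < m := hne.card_pos
  obtain ⟨k, hk⟩ := exists_nat_gt (2 * C / ε)
  obtain ⟨B, hB⟩ := exists_nat_ge (e b + 1)
  obtain ⟨η, hη0, hη⟩ := no_small (e b) m B hind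
  have hb0 : 0 < e b := by linarith
  set θ : ℝ := η / (2 * e b ^ m) with hθ
  have hθ0 : 0 < θ := by positivity
  have hCC := CC_nonneg e b
  have hmR : (1 : ℝ) ≤ m := by exact_mod_cast hm0
  refine ⟨2 * m + m * k, θ * ε / 2, 4 * m * ((2 * m + m * k : ℕ) * CC e b + 1) / ε,
    by positivity, by positivity, ?_⟩
  intro y a hy h1 hsign hbig
  set W : ℕ := 2 * m + m * k with hW
  set R := Real.sqrt (VV e b (y 0)) with hR
  by_contra hcon
  push Not at hcon
  have hWC : 0 ≤ (W : ℝ) * CC e b := by positivity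
  rw [div_le_iff₀ hε] at hbig
  have hR0 : 0 < R := by
    by_contra h
    push Not at h
    have : R * ε ≤ 0 := mul_nonpos_of_nonpos_of_nonneg h hε.le
    have h2 : 0 < 4 * (m : ℝ) * ((W : ℝ) * CC e b + 1) := by positivity
    linarith
  have hhalf : (W : ℝ) * CC e b < ε * R / 2 := by
    nlinarith [mul_nonneg (sub_nonneg.2 hmR) (add_nonneg hWC zero_le_one)]
  have hquart : (W : ℝ) * CC e b < ε / (4 * m) * R := by
    rw [div_mul_eq_mul_div, lt_div_iff₀ (by positivity)]
    nlinarith
  have haB := digit_bound e b y a hb hy h1 B hB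
  -- comparison of the functional with the rotated one
  have hcmp : ∀ j ≤ W, |LL e b (y j) - (Lam e b j (y 0)).re| ≤ W * CC e b := by
    intro j hj
    have h := LL_orbit e b y a hy h1 0 j
    rw [zero_add] at h
    refine h.trans ?_
    have : (j : ℝ) ≤ W := by exact_mod_cast hj
    exact mul_le_mul_of_nonneg_right this hCC
  -- every block of `m` times contains a small one
  have hA : ∀ s ≤ m + m * k, ∃ i < m, |e (y (s + i))| < θ := by
    intro s hs
    by_contra hno
    push Not at hno
    obtain ⟨i, hi, hobs'⟩ := hobs (y 0) s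
    have hiW : s + i ≤ W := by omega
    have h2 := hcmp (s + i) hiW
    have h3 : ε * R / 2 ≤ |LL e b (y (s + i))| := by
      have h4 : |(Lam e b (s + i) (y 0)).re| ≤
          |LL e b (y (s + i)) - (Lam e b (s + i) (y 0)).re| + |LL e b (y (s + i))| := by
        have := abs_sub_abs_le_abs_sub (Lam e b (s + i) (y 0)).re (LL e b (y (s + i)))
        rw [abs_sub_comm] at this
        linarith
      linarith
    have h5 := hsign (s + i) hiW
    have h6 := hcon (s + i) hiW
    rw [← abs_of_nonneg h5, abs_mul] at h6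
    have h7 := hno i hi
    have h8 : θ * (ε * R / 2) ≤ |e (y (s + i))| * |LL e b (y (s + i))| :=
      mul_le_mul h7 h3 (by positivity) (abs_nonneg _)
    linarith
  obtain ⟨j1, hj1, hsm⟩ := hA 0 (by omega)
  rw [zero_add] at hsm
  -- from then on the orbit grows geometrically
  have hgrow : ∀ t ≤ m * k, |e (y (j1 + t))| < θ ∧ e (y (j1 + t)) = e b ^ t * e (y j1) := by
    intro t
    induction t with
    | zero => intro _; simpa using hsm
    | succ t ih =>
      intro ht
      obtain ⟨ih1, ih2⟩ := ih (by omega)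
      obtain ⟨i, hi, hi2⟩ := hA (j1 + t + 1) (by omega)
      have e1 : j1 + t + 1 + i = (j1 + t) + (i + 1) := by ring
      rw [e1] at hi2
      have hz := digits_zero e b y a hb hy m B η haB hη (j1 + t) (i + 1) (by omega) ih1 hi2
      have hz0 : a (j1 + t) = 0 := by simpa using hz 0 (by omega)
      have h2 : e (y (j1 + t + 1)) = e b * e (y (j1 + t)) := by
        rw [hy, hz0]; simp
      have h3 : e (y (j1 + t + (i + 1))) = e b ^ (i + 1) * e (y (j1 + t)) := by
        rw [orbit_formula e b y a hy (j1 + t) (i + 1)]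
        have : ∑ x ∈ range (i + 1), (a (j1 + t + (i + 1) - 1 - x) : ℝ) * e b ^ x = 0 := by
          refine Finset.sum_eq_zero fun x hx => ?_
          have hx' := Finset.mem_range.1 hx
          have e2 : j1 + t + (i + 1) - 1 - x = j1 + t + (i - x) := by omega
          rw [e2, hz (i - x) (by omega)]
          simp
        rw [this, sub_zero]
      rw [← Nat.add_assoc]
      constructor
      · rw [h2, abs_mul, abs_of_pos hb0]
        rw [h3, abs_mul, abs_of_pos (show (0 : ℝ) < e b ^ (i + 1) by positivity)] at hi2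
        have h4 : e b ≤ e b ^ (i + 1) := le_self_pow₀ hb.le (by omega)
        have h5 : e b * |e (y (j1 + t))| ≤ e b ^ (i + 1) * |e (y (j1 + t))| :=
          mul_le_mul_of_nonneg_right h4 (abs_nonneg _)
        linarith
      · rw [h2, ih2, pow_succ]; ring
  -- a sign which is wrong at some time
  have hwrong : ∀ σ : ℝ, (σ = 1 ∨ σ = -1) → 0 ≤ σ * e (y j1) → False := by
    intro σ hσ hσe
    have hσ1 : |σ| = 1 := by rcases hσ with h | h <;> rw [h] <;> simp
    have hσ2 : σ * σ = 1 := by rcases hσ with h | h <;> rw [h] <;> norm_num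
    obtain ⟨t, ht, hft⟩ := both_signs m k hm0 ε C R hε hC hR0 hk
      (fun j => σ * (Lam e b (j1 + j) (y 0)).re)
      (by
        intro s
        obtain ⟨i, hi, h⟩ := hobs (y 0) (j1 + s)
        refine ⟨i, hi, ?_⟩
        rw [abs_mul, hσ1, one_mul, ← Nat.add_assoc]
        exact h)
      (by
        rw [← Finset.mul_sum, abs_mul, hσ1, one_mul, ← Complex.re_sum]
        exact (Complex.abs_re_le_norm _).trans (hsum (y 0) j1 (m * k)))
    have htW : j1 + t ≤ W := by omega
    have h2 := hcmp (j1 + t) htW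
    have h3 : σ * LL e b (y (j1 + t)) < 0 := by
      have h4 : σ * LL e b (y (j1 + t)) - σ * (Lam e b (j1 + t) (y 0)).re ≤ W * CC e b := by
        have h5 : |σ * (LL e b (y (j1 + t)) - (Lam e b (j1 + t) (y 0)).re)| ≤ W * CC e b := by
          rw [abs_mul, hσ1, one_mul]; exact h2
        have h6 := (abs_le.1 h5).2
        linarith
      linarith
    have h7 := hsign (j1 + t) htW
    obtain ⟨_, h8⟩ := hgrow t (by omega)
    have h9 : 0 ≤ σ * e (y (j1 + t)) := by
      rw [h8]
      have : σ * (e b ^ t * e (y j1)) = e b ^ t * (σ * e (y j1)) := by ring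
      rw [this]
      positivity
    have h10 : (σ * e (y (j1 + t))) * (σ * LL e b (y (j1 + t)))
        = e (y (j1 + t)) * LL e b (y (j1 + t)) := by
      calc (σ * e (y (j1 + t))) * (σ * LL e b (y (j1 + t)))
          = (σ * σ) * (e (y (j1 + t)) * LL e b (y (j1 + t))) := by ring
        _ = _ := by rw [hσ2, one_mul]
    have h11 : σ * e (y (j1 + t)) = 0 := by
      by_contra hne'
      have hpos : 0 < σ * e (y (j1 + t)) := lt_of_le_of_ne h9 (Ne.symm hne')
      have := mul_neg_of_pos_of_neg hpos h3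
      linarith
    have h12 : e (y (j1 + t)) = 0 := by
      rcases mul_eq_zero.1 h11 with h | h
      · rcases hσ with h' | h' <;> rw [h'] at h <;> norm_num at h
      · exact h
    have h13 : y (j1 + t) = 0 := (map_eq_zero e).1 h12
    rw [h13, LL_zero, mul_zero] at h3
    exact lt_irrefl _ h3
  rcases le_total 0 (e (y j1)) with h | h
  · exact hwrong 1 (Or.inl rfl) (by simpa using h)
  · exact hwrong (-1) (Or.inr rfl) (by linarith)

end

end Pool.Agent.Lib_helper95.SR
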