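import Mathlib
import Pool.Agent.Lib_helper95.SR.Gain

/-!
A steered orbit has a bounded potential and bounded embeddings.
-/

set_option autoImplicit false

namespace Pool.Agent.Lib_helper95.SR

open Finset Polynomial
open scoped ComplexConjugate

noncomputable section

variable {K : Type*} [Field K] [NumberField K]

lemma abs_LL_le (e : K →+* ℝ) (b y : K) :
    |LL e b y| ≤ Real.sqrt (VV e b y) * Real.sqrt (CC e b) := by
  rw [LL]
  refine (Complex.abs_re_le_norm _).trans ?_
  have h1 : ‖Lam e b 0 y‖ ≤ ∑ φ ∈ SS b, ‖cc e b φ‖ * ‖Del e φ y‖ := by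
    unfold Lam
    refine (norm_sum_le _ _).trans (le_of_eq ?_)
    refine Finset.sum_congr rfl fun φ hφ => ?_
    rw [norm_mul, norm_mul, norm_pow, mem_SS.1 hφ, RCLike.norm_conj]
    simp
  refine h1.trans ?_
  rw [← Real.sqrt_mul (VV_nonneg e b y)]
  apply Real.le_sqrt_of_sq_le
  rw [mul_comm]
  exact Finset.sum_mul_sq_le_sq_mul_sq _ _ _

/-- The square root of the potential changes by at most a constant in one step. -/
lemma root_step (e : K →+* ℝ) (b y : K) (a : ℤ) (h1 : |e y| ≤ 1) :
    |Real.sqrt (VV e b (b * y - a)) - Real.sqrt (VV e b y)| ≤ Real.sqrt (CC e b) := by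
  set r := Real.sqrt (VV e b y) with hr
  set s := Real.sqrt (CC e b) with hs
  have hr0 : 0 ≤ r := Real.sqrt_nonneg _
  have hs0 : 0 ≤ s := Real.sqrt_nonneg _
  have hV : VV e b y = r ^ 2 := (Real.sq_sqrt (VV_nonneg e b y)).symm
  have hC : CC e b = s ^ 2 := (Real.sq_sqrt (CC_nonneg e b)).symm
  have hstep := VV_step e b y a
  have hL := abs_LL_le e b y
  rw [← hr, ← hs] at hL
  have hab : |e y * LL e b y| ≤ |e y| * (r * s) := by
    rw [abs_mul]
    exact mul_le_mul_of_nonneg_left hL (abs_nonneg _)
  have h2 := abs_le.1 hab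
  have he2 : (e y) ^ 2 = |e y| ^ 2 := (sq_abs _).symm
  rw [hV, hC, he2] at hstep
  set t := |e y| with ht
  have ht0 : 0 ≤ t := abs_nonneg _
  have hup : VV e b (b * y - a) ≤ (r + t * s) ^ 2 := by nlinarith [h2.1]
  have hlo : (r - t * s) ^ 2 ≤ VV e b (b * y - a) := by nlinarith [h2.2]
  have h3 : Real.sqrt (VV e b (b * y - a)) ≤ r + t * s := by
    rw [Real.sqrt_le_left (by positivity)]
    exact hup
  have h4 : |r - t * s| ≤ Real.sqrt (VV e b (b * y - a)) := by
    rw [← Real.sqrt_sq_eq_abs]
    exact Real.sqrt_le_sqrt hlo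
  have h5 := le_abs_self (r - t * s)
  have h6 : t * s ≤ s := mul_le_of_le_one_left hs0 h1
  rw [abs_le]
  constructor <;> linarith

/-- The potential of a steered orbit is eventually below a universal bound. -/
theorem bounded_VV (e : K →+* ℝ) (b : K) (hinj : ∀ φ ψ : K →+* ℂ, φ b = ψ b → φ = ψ)
    (hb : 1 < e b) (hne1 : ∀ φ : K →+* ℂ, φ b ≠ 1)
    (hind : ∀ f : ℕ → ℤ, (∑ i ∈ range (SS b).card, (f i : ℝ) * e b ^ i = 0) →
      ∀ i < (SS b).card, f i = 0) (VR : ℝ) :
    ∃ M : ℝ, ∀ (y : ℕ → K) (a : ℕ → ℤ),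
      (∀ n, y (n + 1) = b * y n - a n) → (∀ n, |e (y n)| ≤ 1) →
      (∀ n, VR ≤ VV e b (y n) → 0 ≤ e (y n) * LL e b (y n)) →
      ∃ n0 : ℕ, ∀ n, n0 ≤ n → Real.sqrt (VV e b (y n)) ≤ M := by
  rcases (SS b).eq_empty_or_nonempty with hemp | hne
  · refine ⟨0, fun y a _ _ _ => ⟨0, fun n _ => ?_⟩⟩
    simp [VV, hemp]
  obtain ⟨W, κ, V0, hκ, hV0, hwin⟩ := window e b hinj hb hne1 hne hind
  set s := Real.sqrt (CC e b) with hs
  have hs0 : 0 ≤ s := Real.sqrt_nonneg _
  have hCC := CC_nonneg e b
  set V1 : ℝ := V0 + Real.sqrt (max VR 0) + W * s + ((W + 1) * CC e b + 1) / (2 * κ) with hV1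
  have hV1a : V0 ≤ V1 := by
    have h2 : 0 ≤ Real.sqrt (max VR 0) := Real.sqrt_nonneg _
    have h3 : 0 ≤ (W : ℝ) * s := by positivity
    have h4 : 0 ≤ ((W + 1) * CC e b + 1) / (2 * κ) := by positivity
    linarith
  have hV10 : 0 < V1 := lt_of_lt_of_le hV0 hV1a
  refine ⟨V1 + s + W * s, ?_⟩
  intro y a hy h1 hsign
  set r : ℕ → ℝ := fun n => Real.sqrt (VV e b (y n)) with hr
  have hr0 : ∀ n, 0 ≤ r n := fun n => Real.sqrt_nonneg _
  have hstep : ∀ n, |r (n + 1) - r n| ≤ s := by
    intro n
    simp only [hr]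
    rw [hy]
    exact root_step e b (y n) (a n) (h1 n)
  have hfar : ∀ n j, |r (n + j) - r n| ≤ j * s := by
    intro n j
    induction j with
    | zero => simp
    | succ j ih =>
      have h2 := hstep (n + j)
      rw [← Nat.add_assoc]
      calc |r (n + j + 1) - r n| ≤ |r (n + j + 1) - r (n + j)| + |r (n + j) - r n| :=
            abs_sub_le _ _ _
        _ ≤ s + j * s := by linarith
        _ = ((j + 1 : ℕ) : ℝ) * s := by push_cast; ring
  -- the drop over a window
  have hdrop : ∀ n, V1 ≤ r n → VV e b (y (n + (W + 1))) ≤ VV e b (y n) - 1 := by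
    intro n hn
    have hactive : ∀ j ≤ W, 0 ≤ e (y (n + j)) * LL e b (y (n + j)) := by
      intro j hj
      apply hsign
      have h2 := (abs_le.1 (hfar n j)).1
      have h3 : (j : ℝ) * s ≤ W * s := by
        have : (j : ℝ) ≤ W := by exact_mod_cast hj
        exact mul_le_mul_of_nonneg_right this hs0
      have h4 : 0 ≤ ((W + 1) * CC e b + 1) / (2 * κ) := by positivity
      have h5 : Real.sqrt (max VR 0) ≤ r (n + j) := by linarith
      have h6 : max VR 0 ≤ VV e b (y (n + j)) := by
        have := Real.sqrt_le_sqrt_iff (VV_nonneg e b (y (n + j))) |>.1 h5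
        exact this
      exact (le_max_left _ _).trans h6
    obtain ⟨j, hj, hgain⟩ := hwin (fun i => y (n + i)) (fun i => a (n + i))
      (fun i => by rw [← Nat.add_assoc]; exact hy (n + i)) (fun i => h1 (n + i)) hactive
      (by simpa using hV1a.trans hn)
    have hgain' : κ * r n ≤ e (y (n + j)) * LL e b (y (n + j)) := by simpa using hgain
    have hone : ∀ i, VV e b (y (n + (i + 1)))
        = VV e b (y (n + i)) - 2 * e (y (n + i)) * LL e b (y (n + i))
          + (e (y (n + i))) ^ 2 * CC e b := by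
      intro i
      rw [← Nat.add_assoc, hy]
      exact VV_step e b _ _
    have hsq : ∀ i, (e (y (n + i))) ^ 2 * CC e b ≤ CC e b := by
      intro i
      have h2 := h1 (n + i)
      have h3 : (e (y (n + i))) ^ 2 ≤ 1 := by
        rw [← sq_abs]
        exact pow_le_one₀ (abs_nonneg _) h2
      exact mul_le_of_le_one_left hCC h3
    have hacc : ∀ i ≤ W + 1, VV e b (y (n + i)) ≤
        VV e b (y n) + i * CC e b - (if j < i then 2 * (κ * r n) else 0) := by
      intro i
      induction i with
      | zero => intro _; simp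
      | succ i ih =>
        intro hi
        have ih' := ih (by omega)
        have h2 := hone i
        have h3 := hsq i
        have h4 := hactive i (by omega)
        rw [h2]
        push_cast
        by_cases hij : j < i
        · rw [if_pos hij] at ih'
          rw [if_pos (by omega)]
          linarith
        · rw [if_neg hij] at ih'
          by_cases hij' : j = i
          · rw [if_pos (by omega)]
            rw [hij'] at hgain'
            linarith
          · rw [if_neg (by omega)]
            linarith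
    have h2 := hacc (W + 1) le_rfl
    rw [if_pos (by omega)] at h2
    have h3 : (W + 1) * CC e b + 1 ≤ 2 * (κ * r n) := by
      have h4 : ((W + 1) * CC e b + 1) / (2 * κ) ≤ r n := by
        have h5 : 0 ≤ Real.sqrt (max VR 0) := Real.sqrt_nonneg _
        have h6 : 0 ≤ (W : ℝ) * s := by positivity
        linarith
      rw [div_le_iff₀ (by positivity)] at h4
      linarith
    push_cast at h2
    linarith
  -- some time is below `V1`
  have hlow : ∃ n0, r n0 < V1 := by
    by_contra hno
    push Not at hno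
    have hdec : ∀ k : ℕ, VV e b (y (k * (W + 1))) ≤ VV e b (y 0) - k := by
      intro k
      induction k with
      | zero => simp
      | succ k ih =>
        have h2 := hdrop (k * (W + 1)) (hno _)
        have h3 : (k + 1) * (W + 1) = k * (W + 1) + (W + 1) := by ring
        rw [h3]
        push_cast
        linarith
    obtain ⟨k, hk⟩ := exists_nat_gt (VV e b (y 0))
    have h2 := hdec k
    have h3 := VV_nonneg e b (y (k * (W + 1)))
    linarith
  obtain ⟨n0, hn0⟩ := hlow
  have hQ : ∀ n, ∃ n' ≤ n, n ≤ n' + W ∧ r (n0 + n') ≤ V1 + s := by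
    intro n
    induction n with
    | zero => exact ⟨0, le_rfl, Nat.zero_le _, by simp only [Nat.add_zero]; linarith⟩
    | succ n ih =>
      obtain ⟨n', hn', hW, hle⟩ := ih
      by_cases hc : n + 1 ≤ n' + W
      · exact ⟨n', by omega, hc, hle⟩
      · by_cases hbig : V1 ≤ r (n0 + n')
        · refine ⟨n + 1, le_rfl, by omega, ?_⟩
          have h2 := hdrop (n0 + n') hbig
          have h3 : n0 + (n + 1) = n0 + n' + (W + 1) := by omega
          rw [h3]
          refine le_trans (Real.sqrt_le_sqrt ?_) hle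
          linarith
        · push Not at hbig
          refine ⟨n' + 1, by omega, by omega, ?_⟩
          have h2 := (abs_le.1 (hstep (n0 + n'))).2
          rw [← Nat.add_assoc]
          linarith
  refine ⟨n0, fun n hn => ?_⟩
  obtain ⟨n', hn', hW, hle⟩ := hQ (n - n0)
  have h2 := (abs_le.1 (hfar (n0 + n') (n - n0 - n'))).2
  have h3 : n0 + n' + (n - n0 - n') = n := by omega
  rw [h3] at h2
  have h4 : ((n - n0 - n' : ℕ) : ℝ) ≤ W := by
    have : n - n0 - n' ≤ W := by omega
    exact_mod_cast this
  have h5 : ((n - n0 - n' : ℕ) : ℝ) * s ≤ W * s := mul_le_mul_of_nonneg_right h4 hs0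
  show r n ≤ _
  linarith

end

end Pool.Agent.Lib_helper95.SR
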