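import Mathlib
import Pool.Agent.Lib_helper95.SR.Bound

/-!
All complex embeddings of a steered orbit are eventually below a universal bound.
-/

set_option autoImplicit false

namespace Pool.Agent.Lib_helper95.SR

open Finset Polynomial
open scoped ComplexConjugate

noncomputable section

variable {K : Type*} [Field K] [NumberField K]

/-- The properties of a steered orbit. -/
structure Orbit (e : K →+* ℝ) (b : K) (VR : ℝ) (y : ℕ → K) (a : ℕ → ℤ) : Prop where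
  step : ∀ n, y (n + 1) = b * y n - a n
  small : ∀ n, |e (y n)| ≤ 1
  sign : ∀ n, VR ≤ VV e b (y n) → 0 ≤ e (y n) * LL e b (y n)

lemma contr (x : ℕ → ℝ) (ρ B : ℝ) (h0 : 0 ≤ ρ) (h1 : ρ < 1) (hB : 0 ≤ B)
    (hx : ∀ n, x (n + 1) ≤ ρ * x n + B) : ∃ n0, ∀ n, n0 ≤ n → x n ≤ B / (1 - ρ) + 1 := by
  have h1' : 0 < 1 - ρ := by linarith
  have hn : ∀ n, x n ≤ ρ ^ n * |x 0| + B / (1 - ρ) := by
    intro n
    induction n with
    | zero =>
      have : 0 ≤ B / (1 - ρ) := by positivity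
      have h2 := le_abs_self (x 0)
      simp only [pow_zero, one_mul]
      linarith
    | succ n ih =>
      have h2 := hx n
      have h3 : ρ * x n ≤ ρ * (ρ ^ n * |x 0| + B / (1 - ρ)) := mul_le_mul_of_nonneg_left ih h0
      have h4 : ρ * (B / (1 - ρ)) + B = B / (1 - ρ) := by field_simp; ring
      calc x (n + 1) ≤ ρ * (ρ ^ n * |x 0| + B / (1 - ρ)) + B := by linarith
        _ = ρ ^ (n + 1) * |x 0| + (ρ * (B / (1 - ρ)) + B) := by ring
        _ = _ := by rw [h4]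
  have hlim : Filter.Tendsto (fun n : ℕ => ρ ^ n * |x 0|) Filter.atTop (nhds (0 * |x 0|)) :=
    (tendsto_pow_atTop_nhds_zero_of_lt_one h0 h1).mul_const _
  rw [zero_mul] at hlim
  have hev := hlim.eventually (gt_mem_nhds (show (0 : ℝ) < 1 by norm_num))
  obtain ⟨n0, hn0⟩ := Filter.eventually_atTop.1 hev
  refine ⟨n0, fun n hle => ?_⟩
  have h2 := hn n
  have h3 := hn0 n hle
  linarith

theorem emb_bounded (e : K →+* ℝ) (b : K) (hinj : ∀ φ ψ : K →+* ℂ, φ b = ψ b → φ = ψ)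
    (hb : 1 < e b) (hne1 : ∀ φ : K →+* ℂ, φ b ≠ 1)
    (hcirc : ∀ φ : K →+* ℂ, φ b ≠ ((e b : ℝ) : ℂ) → ‖φ b‖ ≤ 1)
    (hind : ∀ f : ℕ → ℤ, (∑ i ∈ range (SS b).card, (f i : ℝ) * e b ^ i = 0) →
      ∀ i < (SS b).card, f i = 0) (VR : ℝ) :
    ∃ M : ℝ, ∀ (y : ℕ → K) (a : ℕ → ℤ), Orbit e b VR y a →
      ∃ n0 : ℕ, ∀ n, n0 ≤ n → ∀ φ : K →+* ℂ, ‖φ (y n)‖ ≤ M := by
  classical
  obtain ⟨MV, hMV⟩ := bounded_VV e b hinj hb hne1 hind VR
  obtain ⟨B, hB⟩ := exists_nat_ge (e b + 1)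
  have key : ∀ φ : K →+* ℂ, ∃ M : ℝ, ∀ (y : ℕ → K) (a : ℕ → ℤ), Orbit e b VR y a →
      ∃ n0 : ℕ, ∀ n, n0 ≤ n → ‖φ (y n)‖ ≤ M := by
    intro φ
    by_cases h1 : φ b = ((e b : ℝ) : ℂ)
    · have hφ : φ = (Complex.ofRealHom).comp e := hinj _ _ (by simpa using h1)
      refine ⟨1, fun y a ho => ⟨0, fun n _ => ?_⟩⟩
      rw [hφ]
      simp only [RingHom.comp_apply, Complex.ofRealHom_eq_coe, Complex.norm_real, Real.norm_eq_abs]
      exact ho.small n
    · have h2 := hcirc φ h1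
      rcases h2.lt_or_eq with h3 | h3
      · refine ⟨B / (1 - ‖φ b‖) + 1, fun y a ho => ?_⟩
        refine contr (fun n => ‖φ (y n)‖) ‖φ b‖ B (norm_nonneg _) h3 (Nat.cast_nonneg _) ?_
        intro n
        have h4 := digit_bound e b y a hb ho.step ho.small B hB n
        rw [ho.step, map_sub, map_mul, map_intCast]
        refine (norm_sub_le _ _).trans ?_
        rw [norm_mul]
        have h5 : ‖((a n : ℤ) : ℂ)‖ ≤ B := by
          rw [Complex.norm_intCast]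
          have h6 : ((|a n| : ℤ) : ℝ) ≤ ((B : ℤ) : ℝ) := by exact_mod_cast h4
          rw [Int.cast_abs] at h6
          simpa using h6
        linarith
      · refine ⟨MV + 1, fun y a ho => ?_⟩
        obtain ⟨n0, hn0⟩ := hMV y a ho.step ho.small ho.sign
        refine ⟨n0, fun n hn => ?_⟩
        have h4 := hn0 n hn
        have h5 := norm_Del_le e b (y n) (mem_SS.2 h3)
        have h6 : φ (y n) = Del e φ (y n) + ((e (y n) : ℝ) : ℂ) := by simp [Del]
        rw [h6]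
        refine (norm_add_le _ _).trans ?_
        rw [Complex.norm_real, Real.norm_eq_abs]
        have := ho.small n
        linarith
  choose f hf using key
  refine ⟨∑ φ, |f φ|, ?_⟩
  intro y a ho
  have h2 : ∀ φ : K →+* ℂ, ∃ n0 : ℕ, ∀ n, n0 ≤ n → ‖φ (y n)‖ ≤ f φ := fun φ => hf φ y a ho
  choose g hg using h2
  refine ⟨Finset.univ.sup g, fun n hn φ => ?_⟩
  have h3 : g φ ≤ n := (Finset.le_sup (Finset.mem_univ φ)).trans hn
  refine (hg φ n h3).trans ((le_abs_self _).trans ?_)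
  exact Finset.single_le_sum (f := fun φ => |f φ|) (fun _ _ => abs_nonneg _) (Finset.mem_univ φ)

/-- The finite set in which every steered orbit with denominator `q` ends. -/
theorem finite_target (e : K →+* ℝ) (b : K) (hinj : ∀ φ ψ : K →+* ℂ, φ b = ψ b → φ = ψ)
    (hb : 1 < e b) (hbint : IsIntegral ℤ b) (hne1 : ∀ φ : K →+* ℂ, φ b ≠ 1)
    (hcirc : ∀ φ : K →+* ℂ, φ b ≠ ((e b : ℝ) : ℂ) → ‖φ b‖ ≤ 1)
    (hind : ∀ f : ℕ → ℤ, (∑ i ∈ range (SS b).card, (f i : ℝ) * e b ^ i = 0) →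
      ∀ i < (SS b).card, f i = 0) (VR : ℝ) (q : ℤ) (hq : q ≠ 0) :
    ∃ F : Set K, F.Finite ∧ ∀ (y : ℕ → K) (a : ℕ → ℤ), Orbit e b VR y a →
      IsIntegral ℤ ((q : K) * y 0) → ∃ n0 : ℕ, ∀ n, n0 ≤ n → y n ∈ F := by
  obtain ⟨M, hM⟩ := emb_bounded e b hinj hb hne1 hcirc hind VR
  have hqK : (q : K) ≠ 0 := by exact_mod_cast hq
  have hfin := NumberField.Embeddings.finite_of_norm_le K ℂ (|(q : ℝ)| * M)
  refine ⟨(fun x => (q : K) * x) ⁻¹' {x : K | IsIntegral ℤ x ∧ ∀ φ : K →+* ℂ, ‖φ x‖ ≤ |(q : ℝ)| * M},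
    hfin.preimage ((mul_right_injective₀ hqK).injOn), ?_⟩
  intro y a ho hint
  obtain ⟨n0, hn0⟩ := hM y a ho
  refine ⟨n0, fun n hn => ?_⟩
  have hall : ∀ n, IsIntegral ℤ ((q : K) * y n) := by
    intro n
    induction n with
    | zero => exact hint
    | succ n ih =>
      rw [ho.step]
      have h1 : (q : K) * (b * y n - a n) = b * ((q : K) * y n) - ((q * a n : ℤ) : K) := by
        push_cast; ring
      rw [h1]
      refine (hbint.mul ih).sub ?_
      have := isIntegral_algebraMap (R := ℤ) (A := K) (x := q * a n)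
      simpa using this
  simp only [Set.mem_preimage, Set.mem_ofPred_eq]
  refine ⟨hall n, fun φ => ?_⟩
  rw [map_mul, norm_mul, map_intCast, Complex.norm_intCast]
  exact mul_le_mul_of_nonneg_left (hn0 n hn φ) (abs_nonneg _)

end

end Pool.Agent.Lib_helper95.SR
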