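import Mathlib
import Pool.Agent.Lib_helper95.SR.Emb

/-!
For a Pisot or Salem number there are rounding rules with only eventually periodic orbits.
-/

set_option autoImplicit false

namespace Pool.Agent.Lib_helper95.SR

open Finset Polynomial
open scoped ComplexConjugate

noncomputable section

lemma floor_or_ceil_sub (t : ℝ) : |t - ⌊t⌋| ≤ 1 ∧ |t - ⌈t⌉| ≤ 1 ∧ 0 ≤ t - ⌊t⌋ ∧ t - ⌈t⌉ ≤ 0 := by
  have h1 := Int.floor_le t
  have h2 := Int.lt_floor_add_one t
  have h3 := Int.le_ceil t
  have h4 := Int.ceil_lt_add_one t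
  refine ⟨?_, ?_, ?_, ?_⟩
  · rw [abs_le]; constructor <;> linarith
  · rw [abs_le]; constructor <;> linarith
  · linarith
  · linarith

theorem forward (β : ℝ) (hβ : 1 < β) (hint : IsIntegral ℤ β)
    (hc : ∀ z ∈ (minpoly ℚ β).aroots ℂ, z ≠ (β : ℂ) → ‖z‖ ≤ 1) (R : ℝ) :
    ∃ T : ℝ → ℝ, (∀ y, T y = β * y - ⌊β * y⌋ ∨ T y = β * y - ⌈β * y⌉) ∧
      (∀ y ∈ IntermediateField.adjoin ℚ ({β} : Set ℝ), 0 ≤ y → y < 1 →
        (∀ z ∈ (minpoly ℚ y).aroots ℂ, ‖z‖ ≤ R) → T y = Int.fract (β * y)) ∧
      (∀ x ∈ IntermediateField.adjoin ℚ ({β} : Set ℝ), 0 ≤ x → x < 1 →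
        ∃ m n : ℕ, 0 < n ∧ T^[m + n] x = T^[m] x) ∧
      (∀ q : ℕ, 0 < q → {y : ℝ | y ∈ IntermediateField.adjoin ℚ ({β} : Set ℝ) ∧
        IsIntegral ℤ ((q : ℝ) * y) ∧ ∃ n : ℕ, 0 < n ∧ T^[n] y = y}.Finite) := by
  classical
  set K := IntermediateField.adjoin ℚ ({β} : Set ℝ) with hK
  have hintQ : IsIntegral ℚ β := hint.tower_top
  haveI : FiniteDimensional ℚ K := IntermediateField.adjoin.finiteDimensional hintQ
  haveI : NumberField K := ⟨⟩
  have hβK : β ∈ K := IntermediateField.mem_adjoin_simple_self ℚ β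
  set b : K := ⟨β, hβK⟩ with hb_def
  set e : K →+* ℝ := algebraMap K ℝ with he
  have heb : e b = β := rfl
  have hb : 1 < e b := hβ
  have hinj : ∀ φ ψ : K →+* ℂ, φ b = ψ b → φ = ψ := by
    intro φ ψ h
    have h1 : (φ.toRatAlgHom : K →ₐ[ℚ] ℂ) = ψ.toRatAlgHom := by
      refine IntermediateField.algHom_ext_of_eq_adjoin ℚ hK ?_
      intro x hx
      have hx' : x = β := hx
      subst hx'
      exact h
    ext x
    have := congrArg (fun f : K →ₐ[ℚ] ℂ => f x) h1
    simpa using this
  have hroot : ∀ (φ : K →+* ℂ) (y : K), φ y ∈ (minpoly ℚ ((y : K) : ℝ)).aroots ℂ := by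
    intro φ y
    have hyint : IsIntegral ℚ (y : ℝ) := by
      have h1 : IsIntegral ℚ y := Algebra.IsIntegral.isIntegral y
      exact h1.map (IsScalarTower.toAlgHom ℚ K ℝ)
    rw [Polynomial.mem_aroots]
    refine ⟨minpoly.ne_zero hyint, ?_⟩
    have h2 : minpoly ℚ ((y : K) : ℝ) = minpoly ℚ y :=
      minpoly.algebraMap_eq (algebraMap K ℝ).injective y
    rw [h2]
    have h3 : aeval (φ.toRatAlgHom y) (minpoly ℚ y) = φ.toRatAlgHom (aeval y (minpoly ℚ y)) :=
      Polynomial.aeval_algHom_apply _ _ _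
    rw [minpoly.aeval, map_zero] at h3
    simpa using h3
  have hcirc : ∀ φ : K →+* ℂ, φ b ≠ ((e b : ℝ) : ℂ) → ‖φ b‖ ≤ 1 := by
    intro φ hφ
    exact hc _ (hroot φ b) hφ
  have hne1 : ∀ φ : K →+* ℂ, φ b ≠ 1 := by
    intro φ h
    have h1 : φ b = φ 1 := by rw [h, map_one]
    have h2 : b = 1 := φ.injective h1
    have h3 : e b = 1 := by rw [h2, map_one]
    linarith
  have hbint : IsIntegral ℤ b := by
    have h1 : IsIntegral ℤ (algebraMap K ℝ b) := hint
    exact (isIntegral_algebraMap_iff (algebraMap K ℝ).injective).1 h1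
  have hind : ∀ f : ℕ → ℤ, (∑ i ∈ range (SS b).card, (f i : ℝ) * e b ^ i = 0) →
      ∀ i < (SS b).card, f i = 0 := by
    intro f hf i hi
    -- the polynomial has degree below the degree of `β`
    have hcard : (SS b).card < (minpoly ℚ β).natDegree := by
      have h1 : Fintype.card (K →+* ℂ) = (minpoly ℚ β).natDegree := by
        rw [NumberField.Embeddings.card K ℂ]
        exact IntermediateField.adjoin.finrank hintQ
      rw [← h1]
      refine Finset.card_lt_card ?_ |>.trans_eq (Finset.card_univ)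
      rw [Finset.ssubset_univ_iff]
      intro h
      have h2 : (Complex.ofRealHom).comp e ∈ SS b := by rw [h]; exact Finset.mem_univ _
      rw [mem_SS] at h2
      simp only [RingHom.comp_apply, Complex.ofRealHom_eq_coe, Complex.norm_real,
        Real.norm_eq_abs] at h2
      rw [abs_of_pos (by linarith)] at h2
      linarith
    set P : ℚ[X] := ∑ i ∈ range (SS b).card, C (f i : ℚ) * X ^ i with hP
    have hPev : aeval β P = 0 := by
      rw [hP, map_sum, ← hf]
      refine Finset.sum_congr rfl fun j _ => ?_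
      simp [heb]
    have hdeg : P.degree < (minpoly ℚ β).degree := by
      rw [Polynomial.degree_eq_natDegree (minpoly.ne_zero hintQ)]
      refine lt_of_le_of_lt (Polynomial.degree_sum_le _ _) ?_
      rw [Finset.sup_lt_iff (by exact_mod_cast WithBot.bot_lt_coe _)]
      intro j hj
      refine lt_of_le_of_lt (Polynomial.degree_C_mul_X_pow_le _ _) ?_
      have := Finset.mem_range.1 hj
      exact_mod_cast this.trans hcard
    have hP0 : P = 0 := by
      by_contra hne
      exact absurd (minpoly.degree_le_of_ne_zero ℚ β hne hPev) (not_le.2 hdeg)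
    have hco : P.coeff i = (f i : ℚ) := by
      rw [hP, Polynomial.finsetSum_coeff]
      simp only [Polynomial.coeff_C_mul, Polynomial.coeff_X_pow]
      rw [Finset.sum_eq_single i]
      · simp
      · intro j _ hj
        simp [hj.symm]
      · intro h; exact absurd (Finset.mem_range.2 hi) h
    rw [hP0] at hco
    simpa using hco.symm
  -- the threshold
  set VR : ℝ := ((SS b).card : ℝ) * (|R| + β) ^ 2 + 1 with hVR
  set cond : ℝ → Prop := fun t => ∃ h : t ∈ K, VR ≤ VV e b (b * ⟨t, h⟩) ∧ LL e b (b * ⟨t, h⟩) < 0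
    with hcond
  set T : ℝ → ℝ := fun t => if cond t then β * t - ⌈β * t⌉ else β * t - ⌊β * t⌋ with hT
  have hTor : ∀ y, T y = β * y - ⌊β * y⌋ ∨ T y = β * y - ⌈β * y⌉ := by
    intro y
    simp only [hT]
    split_ifs
    · exact Or.inr rfl
    · exact Or.inl rfl
  have hTabs : ∀ y, |T y| ≤ 1 := by
    intro y
    rcases hTor y with h | h <;> rw [h]
    · exact (floor_or_ceil_sub _).1
    · exact (floor_or_ceil_sub _).2.1
  have hTdig : ∀ y, ∃ a : ℤ, T y = β * y - a := by
    intro y
    rcases hTor y with h | h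
    · exact ⟨_, h⟩
    · exact ⟨_, h⟩
  have hTK : ∀ y ∈ K, T y ∈ K := by
    intro y hy
    obtain ⟨a, ha⟩ := hTdig y
    rw [ha]
    exact K.sub_mem (K.mul_mem hβK hy) (by simp)
  have hiterK : ∀ n : ℕ, ∀ y ∈ K, T^[n] y ∈ K := by
    intro n
    induction n with
    | zero => intro y hy; exact hy
    | succ n ih => intro y hy; rw [Function.iterate_succ_apply]; exact ih _ (hTK y hy)
  choose dig hdig using hTdig
  -- the orbit of `T x` is steered
  have horb : ∀ (x : ℝ) (hx : x ∈ K),
      Orbit e b VR (fun n => (⟨T^[n] (T x), hiterK n _ (hTK x hx)⟩ : K))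
        (fun n => dig (T^[n] (T x))) := by
    intro x hx
    refine ⟨?_, ?_, ?_⟩
    · intro n
      apply Subtype.ext
      simp only [Function.iterate_succ_apply']
      rw [hdig]
      push_cast
      rfl
    · intro n
      show |T^[n] (T x)| ≤ 1
      rw [← Function.iterate_succ_apply, Function.iterate_succ_apply']
      exact hTabs _
    · intro n hV
      -- the predecessor
      have hpre : ∃ (t : ℝ) (ht : t ∈ K), T^[n] (T x) = T t := by
        refine ⟨T^[n] x, hiterK n x hx, ?_⟩
        rw [← Function.iterate_succ_apply, Function.iterate_succ_apply']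
      obtain ⟨t, ht, htt⟩ := hpre
      have hyeq : (⟨T^[n] (T x), hiterK n _ (hTK x hx)⟩ : K) = b * ⟨t, ht⟩ - (dig t : K) := by
        apply Subtype.ext
        show T^[n] (T x) = _
        rw [htt, hdig]
        push_cast
        rfl
      have hVeq : VV e b (⟨T^[n] (T x), hiterK n _ (hTK x hx)⟩ : K) = VV e b (b * ⟨t, ht⟩) := by
        rw [hyeq]
        simp [VV, Del]
      have hLeq : LL e b (⟨T^[n] (T x), hiterK n _ (hTK x hx)⟩ : K) = LL e b (b * ⟨t, ht⟩) := by
        rw [hyeq]
        simp [LL, Lam, Del]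
      rw [hVeq] at hV
      rw [hLeq]
      show 0 ≤ T^[n] (T x) * _
      rw [htt]
      by_cases hct : cond t
      · obtain ⟨h', _, hL⟩ := hct
        have h1 : T t = β * t - ⌈β * t⌉ := by
          simp only [hT]
          rw [if_pos]
          exact ⟨h', by assumption, hL⟩
        rw [h1]
        exact mul_nonneg_of_nonpos_of_nonpos (floor_or_ceil_sub _).2.2.2 hL.le
      · have h1 : T t = β * t - ⌊β * t⌋ := by
          simp only [hT]
          rw [if_neg hct]
        have h2 : 0 ≤ LL e b (b * ⟨t, ht⟩) := by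
          by_contra h3
          push Not at h3
          exact hct ⟨ht, hV, h3⟩
        rw [h1]
        exact mul_nonneg (floor_or_ceil_sub _).2.2.1 h2
  refine ⟨T, hTor, ?_, ?_, ?_⟩
  · -- greedy at points with small conjugates
    intro y hy h0 h1 hz
    have hnc : ¬ cond y := by
      rintro ⟨h', hV, _⟩
      have hR0 : 0 ≤ |R| + β := by have := abs_nonneg R; linarith
      have h2 : VV e b (b * ⟨y, h'⟩) ≤ ∑ φ ∈ SS b, (|R| + β) ^ 2 := by
        rw [VV]
        refine Finset.sum_le_sum fun φ hφ => ?_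
        refine pow_le_pow_left₀ (norm_nonneg _) ?_ 2
        rw [Del]
        refine (norm_sub_le _ _).trans ?_
        have h3 : ‖φ (b * ⟨y, h'⟩)‖ ≤ |R| := by
          rw [map_mul, norm_mul, mem_SS.1 hφ, one_mul]
          exact (hz _ (hroot φ ⟨y, h'⟩)).trans (le_abs_self R)
        have h4 : ‖((e (b * ⟨y, h'⟩) : ℝ) : ℂ)‖ ≤ β := by
          have h5 : e (b * ⟨y, h'⟩) = β * y := rfl
          rw [h5, Complex.norm_real, Real.norm_eq_abs, abs_of_nonneg (by positivity)]
          nlinarith
        linarith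
      rw [Finset.sum_const, nsmul_eq_mul] at h2
      linarith
    simp only [hT]
    rw [if_neg hnc]
    rfl
  · -- eventual periodicity
    intro x hx _ _
    have halg : IsAlgebraic ℤ x := by
      have h1 : IsAlgebraic ℚ (⟨x, hx⟩ : K) := Algebra.IsAlgebraic.isAlgebraic _
      have h2 : IsAlgebraic ℚ x := by
        have := h1.algebraMap (A := ℝ)
        exact this
      exact (IsFractionRing.isAlgebraic_iff ℤ ℚ ℝ).2 h2
    obtain ⟨q, hq, hqint⟩ := halg.exists_integral_multiple
    obtain ⟨F, hF, hFo⟩ := finite_target e b hinj hb hbint hne1 hcirc hind VR q hq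
    have ho := horb x hx
    have hq0 : IsIntegral ℤ ((q : K) * (⟨T x, hTK x hx⟩ : K)) := by
      have h1 : IsIntegral ℤ (q • (T x)) := by
        rw [hdig, smul_sub]
        refine IsIntegral.sub ?_ ?_
        · have : q • (β * x) = β * (q • x) := by simp only [zsmul_eq_mul]; ring
          rw [this]
          exact hint.mul hqint
        · have : q • ((dig x : ℤ) : ℝ) = ((q * dig x : ℤ) : ℝ) := by
            simp
          rw [this]
          have := isIntegral_algebraMap (R := ℤ) (A := ℝ) (x := q * dig x)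
          simpa using this
      refine (isIntegral_algebraMap_iff (algebraMap K ℝ).injective).1 ?_
      have h2 : algebraMap K ℝ ((q : K) * (⟨T x, hTK x hx⟩ : K)) = q • (T x) := by
        rw [map_mul, zsmul_eq_mul, map_intCast]
        rfl
      rw [h2]
      exact h1
    obtain ⟨n0, hn0⟩ := hFo _ _ ho hq0
    obtain ⟨i, j, hij, hfe⟩ := hF.exists_lt_map_eq_of_forall_mem
      (f := fun n : ℕ => (⟨T^[n0 + n] (T x), hiterK (n0 + n) _ (hTK x hx)⟩ : K))
      (fun n => hn0 (n0 + n) (by omega))
    have hfe' : T^[n0 + i] (T x) = T^[n0 + j] (T x) := congrArg (fun z : K => (z : ℝ)) hfe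
    refine ⟨n0 + i + 1, j - i, by omega, ?_⟩
    have e1 : n0 + i + 1 + (j - i) = (n0 + j) + 1 := by omega
    rw [e1, Function.iterate_succ_apply, Function.iterate_succ_apply]
    exact hfe'.symm
  · -- finitely many periodic points for each denominator
    intro q hq
    obtain ⟨F, hF, hFo⟩ := finite_target e b hinj hb hbint hne1 hcirc hind VR (q : ℤ)
      (by exact_mod_cast hq.ne')
    refine (hF.image (fun z : K => (z : ℝ))).subset ?_
    rintro y ⟨hy, hyint, n, hn, hper⟩
    -- `y = T x` with `x` in the cycle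
    have hperk : ∀ k : ℕ, T^[k * n] y = y := by
      intro k
      induction k with
      | zero => simp
      | succ k ih => rw [Nat.succ_mul, Nat.add_comm, Function.iterate_add_apply, ih, hper]
    set x := T^[n - 1] y with hx
    have hxK : x ∈ K := hiterK _ y hy
    have hTx : T x = y := by
      rw [hx, ← Function.iterate_succ_apply' T (n - 1) y]
      have : (n - 1).succ = n := by omega
      rw [this, hper]
    have ho := horb x hxK
    have h0 : IsIntegral ℤ (((q : ℤ) : K) * (⟨T x, hTK x hxK⟩ : K)) := by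
      refine (isIntegral_algebraMap_iff (algebraMap K ℝ).injective).1 ?_
      have h2 : algebraMap K ℝ (((q : ℤ) : K) * (⟨T x, hTK x hxK⟩ : K)) = (q : ℝ) * y := by
        rw [map_mul, map_intCast, Int.cast_natCast]
        show (q : ℝ) * T x = _
        rw [hTx]
      rw [h2]
      exact hyint
    obtain ⟨n0, hn0⟩ := hFo _ _ ho h0
    have h1 := hn0 (n0 * n) (Nat.le_mul_of_pos_right _ hn)
    refine ⟨_, h1, ?_⟩
    show T^[n0 * n] (T x) = y
    rw [hTx]
    exact hperk n0

end

end Pool.Agent.Lib_helper95.SR
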