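import Mathlib
import Pool.Agent.Lib_helper95.SR.Forward

/-!
If some rounding rule has only eventually periodic orbits on the field of `β`, then `β` is a Pisot
or a Salem number.
-/

set_option autoImplicit false

namespace Pool.Agent.Lib_helper95.SR

open Finset Polynomial

noncomputable section

theorem integral_of_periodic (β : ℝ) (T : ℝ → ℝ)
    (hT : ∀ y, T y = β * y - ⌊β * y⌋ ∨ T y = β * y - ⌈β * y⌉)
    (hper : ∃ m n : ℕ, 0 < n ∧ T^[m + n] (1 / 2) = T^[m] (1 / 2)) : IsIntegral ℤ β := by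
  have hTdig : ∀ y, ∃ a : ℤ, T y = β * y - a := by
    intro y
    rcases hT y with h | h
    · exact ⟨_, h⟩
    · exact ⟨_, h⟩
  have hpoly : ∀ n : ℕ, ∃ P : ℤ[X], P.degree < (n : WithBot ℕ) ∧
      T^[n] (1 / 2) = β ^ n * (1 / 2) - aeval β P := by
    intro n
    induction n with
    | zero => exact ⟨0, by simp, by simp⟩
    | succ n ih =>
      obtain ⟨P, hP, hPe⟩ := ih
      obtain ⟨a, ha⟩ := hTdig (T^[n] (1 / 2))
      refine ⟨X * P + C a, ?_, ?_⟩
      · refine lt_of_le_of_lt (Polynomial.degree_add_le _ _) (max_lt ?_ ?_)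
        · by_cases hP0 : P = 0
          · rw [hP0, mul_zero, Polynomial.degree_zero]
            exact WithBot.bot_lt_coe _
          · rw [Polynomial.degree_mul, Polynomial.degree_X, Polynomial.degree_eq_natDegree hP0]
            rw [Polynomial.degree_eq_natDegree hP0] at hP
            have h1 : P.natDegree < n := by exact_mod_cast hP
            have h2 : 1 + P.natDegree < n + 1 := by omega
            exact_mod_cast h2
        · refine lt_of_le_of_lt Polynomial.degree_C_le ?_
          exact_mod_cast Nat.succ_pos n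
      · rw [Function.iterate_succ_apply', ha, hPe]
        simp only [map_add, map_mul, Polynomial.aeval_X, Polynomial.aeval_C]
        rw [pow_succ]
        simp
        ring
  obtain ⟨m, n, hn, hmn⟩ := hper
  obtain ⟨P, hP, hPe⟩ := hpoly (m + n)
  obtain ⟨Q, hQ, hQe⟩ := hpoly m
  have hmlt : ((m : ℕ) : WithBot ℕ) < ((m + n : ℕ) : WithBot ℕ) := by
    exact_mod_cast (by omega : m < m + n)
  refine ⟨X ^ (m + n) + (- X ^ m - C 2 * (P - Q)), ?_, ?_⟩
  · apply Polynomial.monic_X_pow_add
    refine lt_of_le_of_lt (Polynomial.degree_sub_le _ _) (max_lt ?_ ?_)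
    · rw [Polynomial.degree_neg, Polynomial.degree_X_pow]
      exact hmlt
    · have h1 : (C (2 : ℤ) * (P - Q)).degree = (P - Q).degree :=
        Polynomial.degree_C_mul (by norm_num)
      rw [h1]
      exact lt_of_le_of_lt (Polynomial.degree_sub_le _ _) (max_lt hP (hQ.trans hmlt))
  · rw [hPe, hQe] at hmn
    have h1 : eval₂ (algebraMap ℤ ℝ) β (X ^ (m + n) + (- X ^ m - C 2 * (P - Q)))
        = β ^ (m + n) - β ^ m - 2 * (aeval β P - aeval β Q) := by
      simp only [Polynomial.eval₂_add, Polynomial.eval₂_sub, Polynomial.eval₂_neg,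
        Polynomial.eval₂_pow, Polynomial.eval₂_X, Polynomial.eval₂_mul, Polynomial.eval₂_C,
        Polynomial.aeval_def]
      simp
      ring
    rw [h1]
    linarith

theorem backward (β : ℝ) (hβ : 1 < β) (T : ℝ → ℝ)
    (hT : ∀ y, T y = β * y - ⌊β * y⌋ ∨ T y = β * y - ⌈β * y⌉)
    (hper : ∀ x ∈ IntermediateField.adjoin ℚ ({β} : Set ℝ), 0 ≤ x → x < 1 →
      ∃ m n : ℕ, 0 < n ∧ T^[m + n] x = T^[m] x) :
    IsIntegral ℤ β ∧ ∀ z ∈ (minpoly ℚ β).aroots ℂ, z ≠ (β : ℂ) → ‖z‖ ≤ 1 := by
  classical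
  set K := IntermediateField.adjoin ℚ ({β} : Set ℝ) with hK
  have hhalf : (1 / 2 : ℝ) ∈ K := by
    have := K.algebraMap_mem (1 / 2 : ℚ)
    simpa using this
  have hint : IsIntegral ℤ β :=
    integral_of_periodic β T hT (hper _ hhalf (by norm_num) (by norm_num))
  refine ⟨hint, ?_⟩
  have hintQ : IsIntegral ℚ β := hint.tower_top
  haveI : FiniteDimensional ℚ K := IntermediateField.adjoin.finiteDimensional hintQ
  haveI : NumberField K := ⟨⟩
  have hβK : β ∈ K := IntermediateField.mem_adjoin_simple_self ℚ β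
  set b : K := ⟨β, hβK⟩ with hb_def
  intro z hz hne
  by_contra hgt
  push Not at hgt
  -- an embedding with `φ b = z`
  have hφ : ∃ φ : K →+* ℂ, φ b = z := by
    have h1 := NumberField.Embeddings.range_eval_eq_rootSet_minpoly K ℂ b
    have h2 : minpoly ℚ b = minpoly ℚ β :=
      (minpoly.algebraMap_eq (algebraMap K ℝ).injective b).symm
    have h3 : z ∈ (minpoly ℚ b).rootSet ℂ := by
      rw [h2, Polynomial.mem_rootSet]
      rw [Polynomial.mem_aroots] at hz
      exact hz
    rw [← h1] at h3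
    exact h3
  obtain ⟨φ, hφb⟩ := hφ
  have hTabs : ∀ y, |T y| ≤ 1 := by
    intro y
    rcases hT y with h | h <;> rw [h]
    · exact (floor_or_ceil_sub _).1
    · exact (floor_or_ceil_sub _).2.1
  have hTdig : ∀ y, ∃ a : ℤ, T y = β * y - a := by
    intro y
    rcases hT y with h | h
    · exact ⟨_, h⟩
    · exact ⟨_, h⟩
  choose dig hdig using hTdig
  have hTK : ∀ y ∈ K, T y ∈ K := by
    intro y hy
    rw [hdig]
    exact K.sub_mem (K.mul_mem hβK hy) (by simp)
  have hiterK : ∀ n : ℕ, ∀ y ∈ K, T^[n] y ∈ K := by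
    intro n
    induction n with
    | zero => intro y hy; exact hy
    | succ n ih => intro y hy; rw [Function.iterate_succ_apply]; exact ih _ (hTK y hy)
  have hz1 : 0 < ‖z‖ - 1 := by linarith
  -- the embedding is bounded on `[0, 1)`
  have hbd : ∀ (x : ℝ) (hx : x ∈ K), 0 ≤ x → x < 1 → ‖φ ⟨x, hx⟩‖ ≤ (β + 1) / (‖z‖ - 1) := by
    intro x hx h0 h1
    by_contra hbig
    push Not at hbig
    set y : ℕ → K := fun n => ⟨T^[n] x, hiterK n x hx⟩ with hy
    have hyabs : ∀ n, |T^[n] x| ≤ 1 := by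
      intro n
      cases n with
      | zero =>
        rw [Function.iterate_zero, id, abs_of_nonneg h0]
        exact h1.le
      | succ n => rw [Function.iterate_succ_apply']; exact hTabs _
    have hystep : ∀ n, y (n + 1) = b * y n - (dig (T^[n] x) : K) := by
      intro n
      apply Subtype.ext
      simp only [hy, Function.iterate_succ_apply']
      rw [hdig]
      push_cast
      rfl
    have hdigb : ∀ n, |((dig (T^[n] x) : ℤ) : ℝ)| ≤ β + 1 := by
      intro n
      have h2 : ((dig (T^[n] x) : ℤ) : ℝ) = β * T^[n] x - T^[n + 1] x := by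
        rw [Function.iterate_succ_apply', hdig (T^[n] x)]; ring
      rw [h2]
      refine (abs_sub _ _).trans ?_
      rw [abs_mul, abs_of_pos (by linarith : (0 : ℝ) < β)]
      have h3 := hyabs n
      have h4 := hyabs (n + 1)
      nlinarith
    have hgrow : ∀ n, (β + 1) / (‖z‖ - 1) < ‖φ (y n)‖ ∧ ‖φ (y n)‖ < ‖φ (y (n + 1))‖ := by
      have hstep : ∀ n, (β + 1) / (‖z‖ - 1) < ‖φ (y n)‖ → ‖φ (y n)‖ < ‖φ (y (n + 1))‖ := by
        intro n hn
        rw [div_lt_iff₀ hz1] at hn
        rw [hystep, map_sub, map_mul, map_intCast, hφb]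
        have h2 := norm_sub_norm_le (z * φ (y n)) ((dig (T^[n] x) : ℤ) : ℂ)
        rw [norm_mul, Complex.norm_intCast] at h2
        have h3 := hdigb n
        linarith
      intro n
      induction n with
      | zero =>
        have h2 : (β + 1) / (‖z‖ - 1) < ‖φ (y 0)‖ := hbig
        exact ⟨h2, hstep 0 h2⟩
      | succ n ih =>
        have h2 : (β + 1) / (‖z‖ - 1) < ‖φ (y (n + 1))‖ := ih.1.trans ih.2
        exact ⟨h2, hstep _ h2⟩
    have hmono : StrictMono (fun n => ‖φ (y n)‖) := strictMono_nat_of_lt_succ fun n => (hgrow n).2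
    obtain ⟨m, n, hn, hmn⟩ := hper x hx h0 h1
    have hyeq : y (m + n) = y m := Subtype.ext hmn
    have h2 := hmono (show m < m + n by omega)
    simp only at h2
    rw [hyeq] at h2
    exact lt_irrefl _ h2
  -- fractional parts of multiples of `β`
  have hzβ : 0 < ‖z - (β : ℂ)‖ := norm_pos_iff.2 (sub_ne_zero.2 hne)
  obtain ⟨k, hk⟩ := exists_nat_gt (((β + 1) / (‖z‖ - 1) + 1) / ‖z - (β : ℂ)‖)
  rw [div_lt_iff₀ hzβ] at hk
  set x : ℝ := Int.fract (k * β) with hx
  have hxK : x ∈ K := by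
    rw [hx, Int.fract]
    exact K.sub_mem (K.mul_mem (by simp) hβK) (by simp)
  have h1 := hbd x hxK (Int.fract_nonneg _) (Int.fract_lt_one _)
  have h2 : φ ⟨x, hxK⟩ = (x : ℂ) + k * (z - β) := by
    have h3 : (⟨x, hxK⟩ : K) = k * b - (⌊k * β⌋ : K) := by
      apply Subtype.ext
      show x = _
      rw [hx, Int.fract]
      push_cast
      rfl
    rw [h3, map_sub, map_mul, map_natCast, map_intCast, hφb, hx, Int.fract]
    push_cast
    ring
  rw [h2] at h1
  have h3 : ‖(k : ℂ) * (z - β)‖ ≤ ‖(x : ℂ) + k * (z - β)‖ + ‖(x : ℂ)‖ := by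
    have h4 : (k : ℂ) * (z - β) = ((x : ℂ) + k * (z - β)) - (x : ℂ) := by ring
    calc ‖(k : ℂ) * (z - β)‖ = ‖((x : ℂ) + k * (z - β)) - (x : ℂ)‖ := by rw [← h4]
      _ ≤ _ := norm_sub_le _ _
  rw [norm_mul, Complex.norm_natCast] at h3
  have h5 : ‖(x : ℂ)‖ ≤ 1 := by
    rw [Complex.norm_real, Real.norm_eq_abs, abs_of_nonneg (Int.fract_nonneg _)]
    exact (Int.fract_lt_one _).le
  linarith

end

end Pool.Agent.Lib_helper95.SR
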